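import Pool.Agent.K1H62.PG.Stm

/-! Piece D of project PG. -/

set_option autoImplicit false

namespace Pool.Agent.K1H38.PG

open Pool.Agent.K1H62.PG
open Pool.Agent.W878.VC (Mdl Prm SPO SLO)

theorem pair_triv (h : (({0, 1} : Set ℕ).Subsingleton ∨ ({0, 1} : Set ℕ) = Set.univ)) : False := by
  rcases h with h | h
  · exact absurd (h (Or.inl rfl) (Or.inr rfl)) (by decide)
  · have : (2 : ℕ) ∈ ({0, 1} : Set ℕ) := by rw [h]; exact Set.mem_univ 2
    rcases this with h | h
    · exact absurd h (by decide)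
    · exact absurd h (by decide)

theorem t_D : S_D := by
  refine ⟨?_, ?_⟩
  · intro A l k hl hk hI s
    refine ⟨?_, ?_⟩
    · rintro h ⟨a, ha⟩
      exact h ⟨a, fun i j hij => (hI _ _).2 (Or.inl (ha i j hij))⟩
    · rintro h ⟨a, ha⟩
      refine h ⟨a, fun i j hij => ⟨fun e => ?_, fun hA => ?_⟩⟩
      · have h1 := (ha i j hij).1
        rw [e] at h1
        exact hl.irr _ h1
      · rcases (hI _ _).1 hA with h1 | h1
        · exact hk.toSPO.asymm h1.2 (ha i j hij).2
        · exact hl.toSPO.asymm h1.1 (ha i j hij).1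
  · rintro A ⟨l, k, hl, hk, hI⟩ hP
    have h1 : ∃ u v, A u v := by
      by_contra h
      push Not at h
      exact pair_triv (hP _ fun u _ v _ w _ =>
        ⟨⟨fun h1 => absurd h1 (h _ _), fun h1 => absurd h1 (h _ _)⟩,
          ⟨fun h1 => absurd h1 (h _ _), fun h1 => absurd h1 (h _ _)⟩⟩)
    have h2 : ∃ u v, Co A u v := by
      by_contra h
      push Not at h
      have h3 : ∀ u v, u ≠ v → A u v := by
        intro u v huv
        by_contra hA
        exact h u v ⟨huv, hA⟩
      refine pair_triv (hP _ fun u hu v hv w hw => ?_)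
      have e1 : u ≠ w := fun e => hw (e ▸ hu)
      have e2 : v ≠ w := fun e => hw (e ▸ hv)
      exact ⟨⟨fun _ => h3 _ _ e2, fun _ => h3 _ _ e1⟩, ⟨fun _ => h3 _ _ e2.symm, fun _ => h3 _ _ e1.symm⟩⟩
    obtain ⟨a, b, hab⟩ := h1
    obtain ⟨c, d, hcd⟩ := h2
    exact ⟨![a, b, c, d], hab, hcd⟩

end Pool.Agent.K1H38.PG
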